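import Pool.Agent.Helper6.O3.St2

set_option autoImplicit false

namespace Pool.Agent.Helper48.O3

open Pool.Agent.Helper6.O3 Filter Topology
open Pool.Agent.Helper99.DF (T TL sq)

/-- The complete homogeneous polynomial in two variables. -/
noncomputable def gg (β γ : ℝ) (n : ℕ) : ℝ := ∑ j ∈ Finset.range (n + 1), β ^ j * γ ^ (n - j)

theorem gg_zero (β γ : ℝ) : gg β γ 0 = 1 := by simp [gg]

theorem gg_succ (β γ : ℝ) (n : ℕ) : gg β γ (n + 1) = β * gg β γ n + γ ^ (n + 1) := by
  unfold gg
  rw [Finset.sum_range_succ' _ (n + 1), Finset.mul_sum]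
  congr 1
  · refine Finset.sum_congr rfl ?_
    intro j _
    have h : n + 1 - (j + 1) = n - j := by omega
    rw [h]; ring
  · simp

theorem hh_zero (α β γ : ℝ) : hh α β γ 0 = 1 := by simp [hh]

theorem hh_succ (α β γ : ℝ) (n : ℕ) : hh α β γ (n + 1) = α * hh α β γ n + gg β γ (n + 1) := by
  unfold hh gg
  rw [Finset.sum_range_succ' _ (n + 1), Finset.mul_sum]
  congr 1
  · refine Finset.sum_congr rfl ?_
    intro i _
    rw [Finset.mul_sum]
    have h : n + 1 + 1 - (i + 1) = n + 1 - i := by omega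
    rw [h]
    refine Finset.sum_congr rfl ?_
    intro j _
    have h2 : n + 1 - (i + 1) - j = n - i - j := by omega
    rw [h2]; ring
  · simp

theorem gg_rec (β γ : ℝ) (n : ℕ) :
    gg β γ (n + 2) = (β + γ) * gg β γ (n + 1) - β * γ * gg β γ n := by
  have h1 := gg_succ β γ (n + 1)
  have h2 := gg_succ β γ n
  have h3 : γ ^ (n + 2) = γ * γ ^ (n + 1) := by ring
  have h4 : γ ^ (n + 1 + 1) = γ ^ (n + 2) := rfl
  rw [h4, h3] at h1
  linear_combination h1 - γ * h2

theorem hh_one (α β γ : ℝ) : hh α β γ 1 = α + β + γ := by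
  have h1 := hh_succ α β γ 0
  have h2 := gg_succ β γ 0
  rw [hh_zero, h2, gg_zero] at h1
  rw [show (0 : ℕ) + 1 = 1 from rfl] at h1
  rw [h1]; ring

theorem hh_two (α β γ : ℝ) :
    hh α β γ 2 = (α + β + γ) * hh α β γ 1 + -(α * β + β * γ + γ * α) := by
  have h1 := hh_succ α β γ 1
  have h2 := gg_rec β γ 0
  have h3 := gg_succ β γ 0
  rw [gg_zero] at h3
  rw [gg_zero, h3] at h2
  rw [show (1 : ℕ) + 1 = 2 from rfl] at h1
  rw [show (0 : ℕ) + 2 = 2 from rfl] at h2
  rw [h1, h2, hh_one]; ring

theorem hh_rec (α β γ : ℝ) (n : ℕ) :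
    hh α β γ (n + 3) = (α + β + γ) * hh α β γ (n + 2) +
      -(α * β + β * γ + γ * α) * hh α β γ (n + 1) + α * β * γ * hh α β γ n := by
  have h1 := hh_succ α β γ (n + 2)
  have h2 := hh_succ α β γ (n + 1)
  have h3 := hh_succ α β γ n
  have h4 := gg_rec β γ (n + 1)
  rw [show n + 2 + 1 = n + 3 from rfl] at h1
  rw [show n + 1 + 1 = n + 2 from rfl] at h2 h4
  rw [show n + 1 + 2 = n + 3 from rfl] at h4
  linear_combination h1 + h4 - (β + γ) * h2 + β * γ * h3

theorem hHH : StHH := by
  intro α β γ c h0 h1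
  constructor
  · intro h n
    induction n using Nat.strong_induction_on with
    | _ n ih =>
      rcases n with _ | _ | _ | n
      · rw [hh_zero]; ring
      · have e := h 0
        unfold ka at e
        rw [show (0 : ℕ) + 3 = 3 from rfl, show (0 : ℕ) + 2 = 2 from rfl,
          show (0 : ℕ) + 1 = 1 from rfl, h0, h1] at e
        rw [show (0 : ℕ) + 1 + 2 = 3 from rfl, show (0 : ℕ) + 1 = 1 from rfl, hh_one]
        linear_combination e
      · have e := h 1
        unfold ka at e
        rw [show (1 : ℕ) + 3 = 4 from rfl, show (1 : ℕ) + 2 = 3 from rfl,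
          show (1 : ℕ) + 1 = 2 from rfl, h1] at e
        have i1 := ih 1 (by omega)
        rw [show (1 : ℕ) + 2 = 3 from rfl] at i1
        rw [show (0 : ℕ) + 1 + 1 + 2 = 4 from rfl, show (0 : ℕ) + 1 + 1 = 2 from rfl, hh_two]
        linear_combination e + (α + β + γ) * i1
      · have e := h (n + 2)
        unfold ka at e
        have i1 := ih (n + 2) (by omega)
        have i2 := ih (n + 1) (by omega)
        have i3 := ih n (by omega)
        have r := hh_rec α β γ n
        rw [show n + 2 + 3 = n + 5 from rfl, show n + 2 + 2 = n + 4 from rfl,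
          show n + 2 + 1 = n + 3 from rfl] at e
        rw [show n + 2 + 2 = n + 4 from rfl] at i1
        rw [show n + 1 + 2 = n + 3 from rfl] at i2
        rw [show n + 1 + 1 + 1 + 2 = n + 5 from rfl, show n + 1 + 1 + 1 = n + 3 from rfl, r]
        linear_combination e + (α + β + γ) * i1 + -(α * β + β * γ + γ * α) * i2 +
          α * β * γ * i3
  · intro h m
    unfold ka
    rcases m with _ | _ | m
    · have i1 := h 1
      rw [show (1 : ℕ) + 2 = 3 from rfl, hh_one] at i1
      rw [show (0 : ℕ) + 3 = 3 from rfl, show (0 : ℕ) + 2 = 2 from rfl,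
        show (0 : ℕ) + 1 = 1 from rfl, h0, h1]
      linear_combination i1
    · have i1 := h 1
      have i2 := h 2
      rw [show (2 : ℕ) + 2 = 4 from rfl, hh_two] at i2
      rw [show (1 : ℕ) + 2 = 3 from rfl] at i1
      rw [show (0 : ℕ) + 1 + 3 = 4 from rfl, show (0 : ℕ) + 1 + 2 = 3 from rfl,
        show (0 : ℕ) + 1 + 1 = 2 from rfl, show (0 : ℕ) + 1 = 1 from rfl, h1]
      linear_combination i2 - (α + β + γ) * i1
    · have i1 := h m
      have i2 := h (m + 1)
      have i3 := h (m + 2)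
      have i4 := h (m + 3)
      have r := hh_rec α β γ m
      rw [r, show m + 3 + 2 = m + 5 from rfl] at i4
      rw [show m + 2 + 2 = m + 4 from rfl] at i3
      rw [show m + 1 + 2 = m + 3 from rfl] at i2
      rw [show m + 1 + 1 + 3 = m + 5 from rfl, show m + 1 + 1 + 2 = m + 4 from rfl,
        show m + 1 + 1 + 1 = m + 3 from rfl, show m + 1 + 1 = m + 2 from rfl]
      linear_combination i4 - (α + β + γ) * i3 + (α * β + β * γ + γ * α) * i2 -
        α * β * γ * i1

end Pool.Agent.Helper48.O3
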